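import Mathlib
import Pool.Agent.Y98.OO.Main

/-!
# No commutative subgroup has an open orbit

`K` is an algebraically closed field of any characteristic. For integral structure constants `β`
of a bilinear map from `K^n` to `K^κ` let `G_β` be the group on the affine space
`K^n × K^κ` with the law `(a, p) (b, q) = (a + b, p + q + β(a, b))`. If `K^n` is not the sum of two
subspaces on which the commutator form `β(x, y) - β(y, x)` vanishes, then no commutative subgroup of
`G_β`, maximal or not, closed or not, has an open orbit on any irreducible variety with an effective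
regular action of `G_β`. This applies to the free groups of class two on `n` generators for every
`n ≥ 3` (dimension `n (n + 1) / 2`). In particular the answer to Q1 is negative in every
characteristic and in infinitely many dimensions, and for all maximal commutative subgroups of these
groups at once.
-/

set_option autoImplicit false

universe u

open CategoryTheory AlgebraicGeometry MonoidalCategory CartesianMonoidalCategory MonObj

namespace Pool.Agent.Results.MP_4a1002_ag.NoCommutativeOpenOrbit

open Pool.Agent.H707R3 Pool.Agent.Y98.OO AffineSpace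

/-- The subgroup `H` is commutative. -/
def IsCom {P : Type u} [Group P] (H : Subgroup P) : Prop := ∀ a ∈ H, ∀ b ∈ H, a * b = b * a

/-- `G` is a connected linear algebraic group all of whose `K`-points are unipotent. -/
def ConnUnip {K : Type u} [Field K] (G : Over (Spec (.of K))) [GrpObj G] : Prop :=
  IsLinearAlgebraicGroup G ∧ ConnectedSpace G.left ∧ ∀ g : Pt G, IsUnipotentPt g

/-- The subgroup `H` of `G(K)` has no open orbit on any irreducible variety with an effective regular
action of `G`. -/
def NoOrb {K : Type u} [Field K] {G : Over (Spec (.of K))} [GrpObj G] (H : Subgroup (Pt G)) : Prop :=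
  ∀ (X : Over (Spec (.of K))) (_ : ModObj G X), IsIrreducibleVariety X → IsEffective G X →
    ¬ HasOpenOrbit H X

/-- No commutative subgroup of `G(K)` has an open orbit on any irreducible variety with an effective
regular action of `G`. -/
def NoComOrb {K : Type u} [Field K] (G : Over (Spec (.of K))) [GrpObj G] : Prop :=
  ∀ H : Subgroup (Pt G), IsCom H → NoOrb H

/-- The underlying variety of `G` is the affine space with coordinates indexed by `J`. -/
def IsAffineSpace {K : Type u} [Field K] (J : Type) (G : Over (Spec (.of K))) : Prop :=
  Nonempty (G ≅ Over.mk (𝔸(ULift.{u} J; Spec (.of K)) ↘ Spec (.of K)))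

theorem result (K : Type u) [Field K] [IsAlgClosed K] :
    (∀ (n : ℕ) (κ : Type) [Finite κ] (β : St n κ), ∃ (G : Over (Spec (.of K))) (_ : GrpObj G),
      ConnUnip G ∧ IsAffineSpace (Fin n ⊕ κ) G ∧ Nonempty (Pt G ≃* FR β K) ∧
      (NoSplit β K → NoComOrb G)) ∧
    (∀ n : ℕ, 3 ≤ n → NoSplit (free n) K) ∧
    (∃ (G : Over (Spec (.of K))) (_ : GrpObj G) (H : Subgroup (Pt G)),
      ConnUnip G ∧ IsMaximalCommutative H ∧ NoOrb H) := by
  refine ⟨fun n κ _ β => ⟨GK β K, frGrp _ _, ⟨isLAG K, isConn K, fun g => isUnipotentPt g⟩,
    ⟨Iso.refl _⟩, points K, fun hβ H hH X _ hX heff => no_open K hβ H hH X hX heff⟩,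
    fun n hn => free_noSplit K n hn, ?_⟩
  obtain ⟨M, -, hM⟩ := exists_maximal (⊥ : Subgroup (Pt (GK (free 3) K))) (by
    intro a ha b hb
    rw [Subgroup.mem_bot] at ha hb
    rw [ha, hb])
  exact ⟨GK (free 3) K, frGrp _ _, M, ⟨isLAG K, isConn K, fun h => isUnipotentPt h⟩, hM,
    fun X _ hX heff => no_open K (free_noSplit K 3 le_rfl) M hM.1 X hX heff⟩

end Pool.Agent.Results.MP_4a1002_ag.NoCommutativeOpenOrbit
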